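import Pool.Agent.helper22.FI.SpecA

set_option autoImplicit false

namespace Pool.Agent.FI

open Pool.Agent.helper58.DC Pool.Agent.DI Pool.Agent.GR Pool.Agent.OB

theorem MLT_in {G : Type} [Group G] {H : Subgroup G} (z : G → ℂ) {x : G} (hx : x ∈ H) : rsH H z x = z x := if_pos hx

theorem MLT_out {G : Type} [Group G] {H : Subgroup G} (z : G → ℂ) {x : G} (hx : x ∉ H) : rsH H z x = 0 := if_neg hx

theorem MLT_cz {G : Type} [Group G] (L K : Subgroup G) (z : G → ℂ) (hz : ∀ x, x ∉ L → z x = 0) : rsH (L ⊓ K) z = rsH K z := by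
  funext x
  by_cases h1 : x ∈ K
  · rw [MLT_in z h1]
    by_cases h2 : x ∈ L
    · exact MLT_in z (Subgroup.mem_inf.2 ⟨h2, h1⟩)
    · rw [hz x h2]
      exact MLT_out z fun h => h2 (Subgroup.mem_inf.1 h).1
  · rw [MLT_out z h1]
    exact MLT_out z fun h => h1 (Subgroup.mem_inf.1 h).2

theorem MLT_CF {G : Type} [Group G] {L H : Subgroup G} (hH : H ≤ L) {z : G → ℂ} (hz : CF L z) : CF H (rsH H z) := by
  constructor
  · intro h hh x
    by_cases hx : x ∈ H
    · have h1 : h * x * h⁻¹ ∈ H := H.mul_mem (H.mul_mem hh hx) (H.inv_mem hh)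
      rw [MLT_in z hx, MLT_in z h1]
      exact hz.1 h (hH hh) x
    · have h1 : h * x * h⁻¹ ∉ H := by
        intro h2
        apply hx
        have h3 := H.mul_mem (H.mul_mem (H.inv_mem hh) h2) hh
        have h4 : h⁻¹ * (h * x * h⁻¹) * h = x := by group
        rwa [h4] at h3
      rw [MLT_out z hx, MLT_out z h1]
  · intro x hx
    exact MLT_out z hx

theorem MLT_int {G : Type} [Group G] {p : ℕ} {M : Ideal (integralClosure ℤ ℂ)} (hS : Setup p M) (H : Subgroup G) {z : G → ℂ}
    (hz : ∀ x, IntAt M (z x)) : ∀ x, IntAt M (rsH H z x) := by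
  intro x
  by_cases hx : x ∈ H
  · rw [MLT_in z hx]
    exact hz x
  · rw [MLT_out z hx]
    exact IntAt.zero hS

theorem MLT_cc {G : Type} [Group G] {H : Subgroup G} {θ : G → ℂ} (hθ : ∀ x, x ∉ H → θ x = 0) (z : G → ℂ) : cc θ (rsH H z) = cc θ z := by
  unfold cc
  congr 1
  refine finsum_congr fun x => ?_
  by_cases hx : x ∈ H
  · rw [MLT_in z hx]
  · rw [hθ x hx, mul_zero, mul_zero]

theorem MLT (h1 : BQA_stmt) (h2 : CVF_stmt) (h3 : CCI_stmt) : MLT_stmt := by
  intro p M hS G _ _ L Q hQ hQL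
  obtain ⟨assoc, bil, sm, dlm, _, supp, comm, cfc, cfs, cfd, intc, inmc⟩ := h2 G
  obtain ⟨H, hH⟩ : ∃ H, H = L ⊓ cz Q := ⟨_, rfl⟩
  have hHL : H ≤ L := by rw [hH]; exact inf_le_left
  rw [← hH]
  have item1 : ∀ z w : G → ℂ, CF L z → CF L w → (∀ x, IntAt M (z x)) → (∀ x, IntAt M (w x)) →
      ∀ x, InM M (rsH H (cv z w) x - cv (rsH H z) (rsH H w) x) := by
    intro z w hz hw hzi hwi x
    by_cases hx : x ∈ H
    · rw [MLT_in _ hx]
      have hxc : x ∈ cz Q := by
        rw [hH] at hx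
        exact (Subgroup.mem_inf.1 hx).2
      have e1 : rsH H z = rsH (cz Q) z := by rw [hH]; exact MLT_cz L (cz Q) z hz.2
      have e2 : rsH H w = rsH (cz Q) w := by rw [hH]; exact MLT_cz L (cz Q) w hw.2
      rw [e1, e2]
      exact h1 p M hS G Q hQ z w (fun r hr x => hz.1 r (hQL hr) x) (fun r hr x => hw.1 r (hQL hr) x) hzi hwi x hxc
    · rw [MLT_out _ hx, supp H _ _ (fun x hx => MLT_out z hx) (fun x hx => MLT_out w hx) x hx, sub_zero]
      exact InM.zero hS
  refine ⟨?_, ?_⟩
  · intro z w hz hw hzi hwi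
    refine ⟨MLT_CF hHL hz, item1 z w hz hw hzi hwi, ?_⟩
    intro θ hθ
    have hθ0 : ∀ x, x ∉ H → θ x = 0 := hθ.1
    refine ⟨MLT_cc hθ0 z, ?_⟩
    obtain ⟨g1, g2, g3⟩ := h3 G H θ hθ
    have e1 : cc θ (cv z w) - cc θ z * cc θ w = cc θ (rsH H (cv z w) - cv (rsH H z) (rsH H w)) := by
      rw [(g1 0 (rsH H (cv z w)) (cv (rsH H z) (rsH H w))).2.1, g2 _ _ (MLT_CF hHL hz) (MLT_CF hHL hw), MLT_cc hθ0, MLT_cc hθ0, MLT_cc hθ0]
    rw [e1]
    refine (g3 p M hS _ ?_).2 (item1 z w hz hw hzi hwi)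
    have c1 : CF H (rsH H (cv z w)) := MLT_CF hHL (cfc L z w hz hw).1
    have c2 : CF H (cv (rsH H z) (rsH H w)) := (cfc H _ _ (MLT_CF hHL hz) (MLT_CF hHL hw)).1
    exact (cfc H _ _ c1 c2).2.2.1
  · intro z hz hzi
    have pcf : ∀ n, CF L (cvp z n) := by
      intro n
      induction n with
      | zero => exact cfd L
      | succ n ih => exact (cfc L _ _ ih hz).1
    have pint : ∀ n, ∀ x, IntAt M (cvp z n x) := by
      intro n
      induction n with
      | zero =>
        intro x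
        show IntAt M (dl x)
        unfold dl
        split_ifs
        · exact IntAt.one hS
        · exact IntAt.zero hS
      | succ n ih => exact intc p M hS _ _ ih hzi
    have z'cf : CF H (rsH H z) := MLT_CF hHL hz
    have z'int := MLT_int hS H hzi
    have p'cf : ∀ n, CF H (cvp (rsH H z) n) := by
      intro n
      induction n with
      | zero => exact cfd H
      | succ n ih => exact (cfc H _ _ ih z'cf).1
    intro n
    induction n with
    | zero =>
      intro x
      have e1 : rsH H (cvp z 0) x = cvp (rsH H z) 0 x := by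
        show rsH H dl x = dl x
        by_cases hx : x ∈ H
        · exact MLT_in _ hx
        · rw [MLT_out _ hx]
          have : x ≠ 1 := fun h => hx (h ▸ H.one_mem)
          unfold dl
          rw [if_neg this]
      rw [e1, sub_self]
      exact InM.zero hS
    | succ n ih =>
      intro x
      have a1 := item1 (cvp z n) z (pcf n) hz (pint n) hzi x
      obtain ⟨a, ha⟩ : ∃ a, a = rsH H (cvp z n) - cvp (rsH H z) n := ⟨_, rfl⟩
      have hain : ∀ x, InM M (a x) := by
        intro x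
        rw [ha]
        exact ih x
      have ha0 : ∀ x, x ∉ H → a x = 0 := by
        intro x hx
        rw [ha, Pi.sub_apply, MLT_out _ hx, (p'cf n).2 x hx, sub_zero]
      have a2 : InM M (cv a (rsH H z) x) := by
        rw [← comm H (rsH H z) a z'cf ha0]
        exact inmc p M hS _ _ z'int hain x
      have e2 : rsH H (cvp z (n + 1)) x - cvp (rsH H z) (n + 1) x =
          (rsH H (cv (cvp z n) z) x - cv (rsH H (cvp z n)) (rsH H z) x) + cv a (rsH H z) x := by
        have e3 : cvp z (n + 1) = cv (cvp z n) z := rfl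
        have e4 : cvp (rsH H z) (n + 1) = cv (cvp (rsH H z) n) (rsH H z) := rfl
        rw [e3, e4, ha, (bil (rsH H (cvp z n)) (cvp (rsH H z) n) (rsH H z)).2.2.1, Pi.sub_apply]
        ring
      rw [e2]
      exact InM.add hS a1 a2

end Pool.Agent.FI
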