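import Pool.Agent.helper22.FI.SpecA

set_option autoImplicit false

namespace Pool.Agent.FI

open Pool.Agent.helper58.DC Pool.Agent.DI Pool.Agent.GR Pool.Agent.OB

theorem SPW (h1 : BLE_stmt) (h2 : CLS_stmt) (h3 : SBI_stmt) (h4 : PWN_stmt) (h5 : CVF_stmt) (h6 : CCI_stmt) : SPW_stmt := by
  intro p M hS G _ _ L ψ hψ y hy ho
  obtain ⟨_, ecf, eint, eidem, ein, eout, _, hBq⟩ := h1 p M hS G L L le_rfl ψ
  rw [hBq] at ecf eint eidem ein eout
  obtain ⟨e, he⟩ : ∃ e, e = eS L (Bl M L ψ) := ⟨_, rfl⟩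
  rw [← he] at ecf eint eidem ein eout ⊢
  obtain ⟨c1, c2, c3, _⟩ := h2 G L y
  obtain ⟨k, hk⟩ : ∃ k, k = cls L y := ⟨_, rfl⟩
  have kcf : CF L k := by rw [hk]; exact c2 hy
  have kint : ∀ x, IntAt M (k x) := fun x => by rw [hk]; exact IntAt.of_isIntegral hS (c3 x)
  obtain ⟨o, hoo⟩ : ∃ o, o = cc ψ k := ⟨_, rfl⟩
  rw [← hk, ← hoo] at ho
  rw [← hk]
  have oint : IntAt M o := by
    rw [hoo]
    exact ((h6 G L ψ hψ).2.2 p M hS k kcf.1).1 kint
  obtain ⟨assoc, bil, sm, dlm, _, _, comm, cfc, cfs, cfd, intc, inmc⟩ := h5 G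
  have intsm : ∀ (c : ℂ) (a : G → ℂ), IntAt M c → (∀ x, IntAt M (a x)) → ∀ x, IntAt M ((c • a) x) := by
    intro c a hc ha x
    rw [Pi.smul_apply, smul_eq_mul]
    exact IntAt.mul hS hc (ha x)
  obtain ⟨z, hz⟩ : ∃ z, z = cv e k - o • e := ⟨_, rfl⟩
  have zcf : CF L z := by
    rw [hz]
    exact (cfc L _ _ (cfc L _ _ ecf kcf).1 (cfs L o e ecf)).2.2
  have zint : ∀ x, IntAt M (z x) := by
    intro x
    rw [hz, Pi.sub_apply]
    exact IntAt.sub hS (intc p M hS e k eint kint x) (intsm o e oint eint x)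
  have zin : ∀ θ ∈ IrrOn L, InM M (cc θ z) := by
    intro θ hθ
    obtain ⟨g1, g2, _⟩ := h6 G L θ hθ
    have e1 : cc θ z = cc θ e * (cc θ k - o) := by
      rw [hz, (g1 0 (cv e k) (o • e)).2.1, (g1 o e e).2.2.1, g2 e k ecf kcf]
      ring
    rw [e1]
    by_cases hb : θ ∈ Bl M L ψ
    · rw [ein θ hb, one_mul, hoo]
      exact (h3 p M hS G L θ ψ hb.2).1 k kcf kint
    · rw [eout θ hθ hb, zero_mul]
      exact InM.zero hS
  obtain ⟨n, hn⟩ := h4 p M hS G L z zcf zint zin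
  -- the powers
  have pcf : ∀ n, CF L (cvp z n) := by
    intro n
    induction n with
    | zero => exact cfd L
    | succ n ih => exact (cfc L _ _ ih zcf).1
  have hn1 : ∀ x, InM M (cvp z (n + 1) x) := by
    have e1 : cvp z (n + 1) = cv z (cvp z n) := comm L (cvp z n) z (pcf n) zcf.2
    rw [e1]
    exact inmc p M hS z (cvp z n) zint hn
  have hez : cv e z = z := by
    rw [hz, (bil e (cv e k) (o • e)).2.2.2, ← assoc, eidem, (sm o e e).2, eidem]
  have key : ∀ n : ℕ, ∃ w : G → ℂ, CF L w ∧ (∀ x, IntAt M (w x)) ∧ cvp z (n + 1) = (-o) ^ (n + 1) • e + cv k w := by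
    intro n
    induction n with
    | zero =>
      refine ⟨e, ecf, eint, ?_⟩
      have e1 : cvp z (0 + 1) = z := (dlm z).1
      rw [e1, hz, comm L e k ecf kcf.2, zero_add, pow_one, neg_smul]
      abel
    | succ n ih =>
      obtain ⟨w, w1, w2, w3⟩ := ih
      have oin : IntAt M ((-o) ^ (n + 1)) := IntAt.pow hS (IntAt.neg oint) _
      refine ⟨(-o) ^ (n + 1) • e + cv w z, (cfc L _ _ (cfs L _ e ecf) (cfc L _ _ w1 zcf).1).2.1, ?_, ?_⟩
      · intro x
        rw [Pi.add_apply]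
        exact IntAt.add hS (intsm _ e oin eint x) (intc p M hS w z w2 zint x)
      · have e1 : cvp z (n + 1 + 1) = cv (cvp z (n + 1)) z := rfl
        rw [e1, w3, (bil ((-o) ^ (n + 1) • e) (cv k w) z).1, (sm ((-o) ^ (n + 1)) e z).1, hez, assoc, (bil k ((-o) ^ (n + 1) • e) (cv w z)).2.1,
          (sm ((-o) ^ (n + 1)) k e).2, hz, comm L e k ecf kcf.2, smul_sub, smul_smul, pow_succ (-o) (n + 1)]
        have e2 : (-o) ^ (n + 1) * -o = -((-o) ^ (n + 1) * o) := by ring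
        rw [e2, neg_smul]
        abel
  obtain ⟨w, w1, w2, w3⟩ := key n
  obtain ⟨c, hc⟩ : ∃ c, c = (-o) ^ (n + 1) := ⟨_, rfl⟩
  rw [← hc] at w3
  have cint : IntAt M c := by rw [hc]; exact IntAt.pow hS (IntAt.neg oint) _
  have cnin : ¬ InM M c := by
    intro h
    rw [hc] at h
    have h7 := InM.of_pow hS (IntAt.neg oint) h
    apply ho
    have h8 := InM.neg h7
    rwa [neg_neg] at h8
  have cinv := IntAt.inv hS cint cnin
  have cne : c ≠ 0 := by
    intro h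
    rw [h] at cnin
    exact cnin (InM.zero hS)
  refine ⟨-(c⁻¹ • w), ?_, ?_, ?_⟩
  · have e1 : -(c⁻¹ • w) = (-c⁻¹) • w := by rw [neg_smul]
    rw [e1]
    exact cfs L _ w w1
  · intro x
    rw [Pi.neg_apply]
    exact IntAt.neg (intsm _ w cinv w2 x)
  · intro x
    have e1 : -(c⁻¹ • w) = (-c⁻¹) • w := by rw [neg_smul]
    have e2 : e x - cv k (-(c⁻¹ • w)) x = c⁻¹ * cvp z (n + 1) x := by
      rw [e1, (sm (-c⁻¹) k w).2, w3, Pi.smul_apply, Pi.add_apply, Pi.smul_apply, smul_eq_mul, smul_eq_mul]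
      field_simp
      ring
    rw [e2]
    exact InM.mul_left hS cinv (hn1 x)

end Pool.Agent.FI
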