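import Pool.Agent.helper36.HK.SpecN

/-!
# Row MVS: the asymptotic formula for the mean value
-/

set_option autoImplicit false

open Finset

namespace Pool.Agent.FI

private theorem MVS_big (k : ℕ) (κ : ℝ) (hκ : 0 < κ) :
    ∃ N₀ : ℕ, ∀ N : ℕ, N₀ ≤ N → Real.log N ^ k ≤ κ * Real.sqrt N := by
  have h1 := ((isLittleO_log_rpow_rpow_atTop (k : ℝ) (show (0 : ℝ) < 1 / 2 by norm_num))).bound hκ
  have h2 := tendsto_natCast_atTop_atTop (R := ℝ) |>.eventually h1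
  obtain ⟨N₀, h3⟩ := Filter.eventually_atTop.1 h2
  refine ⟨N₀ + 1, fun N hN => ?_⟩
  have h4 := h3 N (by omega)
  have hN1 : (1 : ℝ) ≤ N := by exact_mod_cast (by omega : 1 ≤ N)
  have hl := Real.log_nonneg hN1
  rw [Real.rpow_natCast, Real.norm_of_nonneg (pow_nonneg hl k), ← Real.sqrt_eq_rpow,
    Real.norm_of_nonneg (Real.sqrt_nonneg _)] at h4
  exact h4

private theorem MVS_Zr (y : ℝ) (hy : 2 < y) : ∃ r : ℕ, y ≤ Zr r ∧ (Zr r : ℝ) ≤ y ^ 2 := by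
  have hex : ∃ r : ℕ, y ≤ (Zr r : ℝ) := by
    refine ⟨⌈y⌉₊, (Nat.le_ceil y).trans ?_⟩
    have h1 : ⌈y⌉₊ ≤ Zr ⌈y⌉₊ := by
      unfold Zr
      calc ⌈y⌉₊ ≤ 2 ^ ⌈y⌉₊ := Nat.lt_two_pow_self.le
        _ ≤ 2 ^ 2 ^ ⌈y⌉₊ := Nat.lt_two_pow_self.le
    exact_mod_cast h1
  classical
  have h2 := Nat.find_spec hex
  set r := Nat.find hex with hr
  have hr0 : r ≠ 0 := by
    intro h
    rw [h] at h2
    unfold Zr at h2
    norm_num at h2
    linarith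
  obtain ⟨s, hs⟩ := Nat.exists_eq_succ_of_ne_zero hr0
  have h3 : ¬ y ≤ (Zr s : ℝ) := Nat.find_min hex (by omega)
  push Not at h3
  refine ⟨r, h2, ?_⟩
  have h4 : Zr r = Zr s ^ 2 := by
    rw [hs]
    unfold Zr
    rw [← pow_mul, Nat.succ_eq_add_one, pow_succ]
  rw [h4]
  push_cast
  exact pow_le_pow_left₀ (Nat.cast_nonneg _) h3.le 2

private theorem MVS_Zr_mono {a b : ℕ} (h : a ≤ b) : Zr a ≤ Zr b := by
  unfold Zr
  exact Nat.pow_le_pow_right (by norm_num) (Nat.pow_le_pow_right (by norm_num) h)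

theorem MVS (hRED : RED_stmt) (hPPW : PPW_stmt) (hPPX : PPX_stmt) (hKAP : KAP_stmt)
    (hMTA : MTA_stmt) (hKPS : KPS_stmt) : MVS_stmt := by
  classical
  intro ε hε K
  have hlep : 0 < lep := by
    unfold lep
    have : 0 ≤ √(8 : ℝ) := Real.sqrt_nonneg _
    exact Real.log_pos (by linarith)
  obtain ⟨κ₀, hκ₀⟩ : ∃ κ₀ : ℝ, κ₀ = √8 / lep := ⟨_, rfl⟩
  have hκpos : 0 < κ₀ := by
    rw [hκ₀]
    have : 0 < √(8 : ℝ) := Real.sqrt_pos.2 (by norm_num)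
    positivity
  obtain ⟨hSg, hten⟩ := hKPS
  obtain ⟨r₀, hr₀⟩ := Metric.tendsto_atTop.1 hten (ε / (4 * κ₀)) (by positivity)
  obtain ⟨C₅, x₁, hC₅, hRED⟩ := hRED (K + 1)
  obtain ⟨x₂, hMTA⟩ := hMTA (ε / 4) (by positivity) C₅ K
  obtain ⟨x₃, hPPW⟩ := hPPW
  obtain ⟨x₅, hPPX⟩ := hPPX
  obtain ⟨Ck, hCk, hKAP⟩ := hKAP
  obtain ⟨x₄, hbig⟩ := MVS_big K (ε / 8) (by positivity)
  obtain ⟨x₆, hbig'⟩ := MVS_big (K + 1) (ε / (8 * (Ck * (2 * C₅ + 1)))) (by positivity)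
  refine ⟨x₁ + x₂ + x₃ + x₄ + x₅ + x₆ + ⌈Real.exp (4 + 8 / ε + Zr r₀)⌉₊, fun x hx A hA1 hA2 => ?_⟩
  have hxe : Real.exp (4 + 8 / ε + Zr r₀) ≤ (x : ℝ) :=
    (Nat.le_ceil _).trans (by exact_mod_cast (by omega))
  have hx0 : (0 : ℝ) < x := lt_of_lt_of_le (Real.exp_pos _) hxe
  have hL : 4 + 8 / ε + Zr r₀ ≤ Real.log x := by rw [Real.le_log_iff_exp_le hx0]; exact hxe
  have hx1 : (1 : ℝ) ≤ x := by
    have h1 : (1 : ℝ) ≤ Real.exp (4 + 8 / ε + Zr r₀) := by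
      apply Real.one_le_exp
      positivity
    linarith
  have hc4 : 0 < 8 / ε := by positivity
  have hZr0 : (0 : ℝ) ≤ Zr r₀ := Nat.cast_nonneg _
  have hbx := hbig x (by omega)
  have hbx' := hbig' x (by omega)
  set L := Real.log x with hLd
  have hL4 : 4 ≤ L := by linarith
  have hL0 : 0 < L := by linarith
  have hLC : L ≤ L ^ C₅ := by
    calc L = L ^ 1 := (pow_one L).symm
      _ ≤ L ^ C₅ := pow_le_pow_right₀ (by linarith) hC₅
  have hy : 2 < L ^ C₅ := by linarith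
  obtain ⟨r, hr1, hr2⟩ := MVS_Zr (L ^ C₅) hy
  have hr2' : (Zr r : ℝ) ≤ L ^ (2 * C₅) := by
    rw [mul_comm 2 C₅, pow_mul]
    exact hr2
  have hrr : r₀ ≤ r := by
    by_contra hcon
    push Not at hcon
    have h1 : (Zr r : ℝ) ≤ Zr r₀ := by exact_mod_cast MVS_Zr_mono hcon.le
    linarith
  have b0 := hr₀ r hrr
  rw [Real.dist_eq] at b0
  have b1 := hRED x (by omega) r hr1 hr2' A hA2
  have b2 := hMTA x (by omega) r hr1 hr2' A hA1 hA2
  have b3 := hPPW x (by omega) A hA2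
  have b4 := hPPX x (by omega) A hA2
  obtain ⟨hk1, hk2⟩ := hKAP r
  rw [← hκ₀] at b2 ⊢
  -- decomposition
  have hZ : ∀ ζ ∈ PZ x A, (x : ℤ) < ζ.2 ∧ ζ.2 ≤ 2 * x ∧ 1 ≤ ζ.1 ∧ ζ.1 ≤ A := by
    intro ζ hζ
    unfold PZ at hζ
    rw [mem_filter, mem_product, mem_Icc, mem_Ioc] at hζ
    exact ⟨hζ.1.2.1, hζ.1.2.2, hζ.1.1.1, hζ.1.1.2⟩
  have hnu0 : ∀ l, 0 ≤ nu r l := by
    intro l
    unfold nu
    split_ifs
    · linarith
    · exact le_rfl
  have hnu1 : ∀ l, nu r l ≤ kap r := by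
    intro l
    unfold nu
    split_ifs
    · exact le_rfl
    · linarith
  have hth0 : ∀ ζ ∈ PZ x A, 0 ≤ th ζ.2 := by
    intro ζ hζ
    obtain ⟨h1, h2, -⟩ := hZ ζ hζ
    unfold th
    split_ifs
    · apply Real.log_nonneg
      have hx0' : (0 : ℤ) ≤ x := Int.natCast_nonneg x
      have : (1 : ℤ) ≤ ζ.2 := by omega
      exact_mod_cast this
    · exact le_rfl
  have hsum1 : ∑ ζ ∈ PZ x A, th ζ.2 * ArithmeticFunction.vonMangoldt (nn ζ) =
      ∑ ζ ∈ PZ x A, lam x r ζ.2 * ArithmeticFunction.vonMangoldt (nn ζ) +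
        ∑ ζ ∈ PZ x A, nu r ζ.2 * ArithmeticFunction.vonMangoldt (nn ζ) := by
    rw [← Finset.sum_add_distrib]
    refine Finset.sum_congr rfl fun ζ hζ => ?_
    obtain ⟨h1, h2, -⟩ := hZ ζ hζ
    unfold lam
    rw [if_pos ⟨h1, h2⟩]
    ring
  have hsum2 : ∑ ζ ∈ PZ x A, nu r ζ.2 * ArithmeticFunction.vonMangoldt (nn ζ) =
      ∑ ζ ∈ PZ x A, nu r ζ.2 * (if (nn ζ).Prime then Real.log (nn ζ) else 0) +
      ∑ ζ ∈ PZ x A with ¬ (nn ζ).Prime, nu r ζ.2 * ArithmeticFunction.vonMangoldt (nn ζ) := by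
    rw [Finset.sum_filter, ← Finset.sum_add_distrib]
    refine Finset.sum_congr rfl fun ζ _ => ?_
    by_cases h : (nn ζ).Prime
    · rw [if_pos h, if_neg (by simpa using h), ArithmeticFunction.vonMangoldt_apply_prime h,
        add_zero]
    · rw [if_neg h, if_pos h, mul_zero, zero_add]
  have hsum3 : ∑ ζ ∈ PZ x A, th ζ.2 * ArithmeticFunction.vonMangoldt (nn ζ) =
      ∑ ζ ∈ PZ x A with (nn ζ).Prime, th ζ.2 * Real.log (nn ζ) +
      ∑ ζ ∈ PZ x A with ¬ (nn ζ).Prime, th ζ.2 * ArithmeticFunction.vonMangoldt (nn ζ) := by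
    rw [← Finset.sum_filter_add_sum_filter_not (PZ x A) (fun ζ => (nn ζ).Prime)]
    congr 1
    refine Finset.sum_congr rfl fun ζ hζ => ?_
    rw [ArithmeticFunction.vonMangoldt_apply_prime (mem_filter.1 hζ).2]
  have hE1 : 0 ≤ ∑ ζ ∈ PZ x A with ¬ (nn ζ).Prime,
      th ζ.2 * ArithmeticFunction.vonMangoldt (nn ζ) :=
    Finset.sum_nonneg fun ζ hζ =>
      mul_nonneg (hth0 ζ (mem_filter.1 hζ).1) ArithmeticFunction.vonMangoldt_nonneg
  have hE2 : 0 ≤ ∑ ζ ∈ PZ x A with ¬ (nn ζ).Prime,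
      nu r ζ.2 * ArithmeticFunction.vonMangoldt (nn ζ) :=
    Finset.sum_nonneg fun ζ _ => mul_nonneg (hnu0 _) ArithmeticFunction.vonMangoldt_nonneg
  have hE3 : ∑ ζ ∈ PZ x A with ¬ (nn ζ).Prime, nu r ζ.2 * ArithmeticFunction.vonMangoldt (nn ζ)
      ≤ kap r * (x : ℝ) ^ (4 / 3 : ℝ) := by
    calc ∑ ζ ∈ PZ x A with ¬ (nn ζ).Prime, nu r ζ.2 * ArithmeticFunction.vonMangoldt (nn ζ)
        ≤ ∑ ζ ∈ PZ x A with ¬ (nn ζ).Prime, kap r * ArithmeticFunction.vonMangoldt (nn ζ) :=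
          Finset.sum_le_sum fun ζ _ =>
            mul_le_mul_of_nonneg_right (hnu1 _) ArithmeticFunction.vonMangoldt_nonneg
      _ = kap r * ∑ ζ ∈ PZ x A with ¬ (nn ζ).Prime, ArithmeticFunction.vonMangoldt (nn ζ) := by
          rw [Finset.mul_sum]
      _ ≤ _ := mul_le_mul_of_nonneg_left b4 (by linarith)
  -- the errors
  have hA0 : (x : ℝ) ≤ A * L ^ K := by
    rw [div_le_iff₀ (by positivity)] at hA1
    exact hA1
  have hAnn : (0 : ℝ) ≤ A := by positivity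
  have herr1 : (x : ℝ) ^ 2 / L ^ (K + 1) ≤ ε / 8 * (A * x) := by
    rw [div_le_iff₀ (by positivity), pow_succ]
    have h1 : 1 ≤ ε / 8 * L := by
      have h2 : ε / 8 * (8 / ε) = 1 := by field_simp
      have h3 : 0 < ε / 8 := by positivity
      nlinarith
    calc (x : ℝ) ^ 2 = x * x := sq _
      _ ≤ x * (A * L ^ K) := mul_le_mul_of_nonneg_left hA0 hx0.le
      _ = 1 * (x * (A * L ^ K)) := (one_mul _).symm
      _ ≤ (ε / 8 * L) * (x * (A * L ^ K)) := mul_le_mul_of_nonneg_right h1 (by positivity)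
      _ = ε / 8 * (A * x) * (L ^ K * L) := by ring
  have h32 : (x : ℝ) ^ (3 / 2 : ℝ) = x * Real.sqrt x := by
    rw [Real.sqrt_eq_rpow, ← Real.rpow_one_add' hx0.le (by norm_num)]
    norm_num
  have hs0 : 0 < Real.sqrt x := Real.sqrt_pos.2 hx0
  have hss : Real.sqrt x * Real.sqrt x = x := Real.mul_self_sqrt hx0.le
  have herr2 : (x : ℝ) ^ (3 / 2 : ℝ) ≤ ε / 8 * (A * x) := by
    rw [h32]
    have h2 : Real.sqrt x ≤ ε / 8 * A := by
      have h3 : Real.sqrt x * Real.sqrt x ≤ Real.sqrt x * (ε / 8 * A) := by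
        rw [hss]
        calc (x : ℝ) ≤ A * L ^ K := hA0
          _ ≤ A * (ε / 8 * Real.sqrt x) := mul_le_mul_of_nonneg_left hbx hAnn
          _ = Real.sqrt x * (ε / 8 * A) := by ring
      exact le_of_mul_le_mul_left h3 hs0
    calc (x : ℝ) * Real.sqrt x ≤ x * (ε / 8 * A) := mul_le_mul_of_nonneg_left h2 hx0.le
      _ = ε / 8 * (A * x) := by ring
  have hlogZ : Real.log (Zr r) ≤ (2 * C₅ + 1) * L := by
    have hZpos : (0 : ℝ) < Zr r := by linarith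
    have h1 : Real.log (Zr r) ≤ Real.log (L ^ (2 * C₅)) := Real.log_le_log hZpos hr2'
    rw [Real.log_pow] at h1
    have h2 : Real.log L ≤ L := (Real.log_le_sub_one_of_pos hL0).trans (by linarith)
    have h3 : (0 : ℝ) ≤ ((2 * C₅ : ℕ) : ℝ) := Nat.cast_nonneg _
    have h4 : ((2 * C₅ : ℕ) : ℝ) * Real.log L ≤ ((2 * C₅ : ℕ) : ℝ) * L :=
      mul_le_mul_of_nonneg_left h2 h3
    push_cast at h1 h4
    linarith
  have herr3 : kap r * (x : ℝ) ^ (4 / 3 : ℝ) ≤ ε / 8 * (A * x) := by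
    have h1 : kap r ≤ Ck * (2 * C₅ + 1) * L := by
      calc kap r ≤ Ck * Real.log (Zr r) := hk2
        _ ≤ Ck * ((2 * C₅ + 1) * L) := mul_le_mul_of_nonneg_left hlogZ hCk.le
        _ = _ := by ring
    have h2 : (x : ℝ) ^ (4 / 3 : ℝ) ≤ x * Real.sqrt x := by
      rw [← h32]
      exact Real.rpow_le_rpow_of_exponent_le hx1 (by norm_num)
    obtain ⟨D, hD⟩ : ∃ D : ℝ, D = Ck * (2 * C₅ + 1) := ⟨_, rfl⟩
    have hDpos : 0 < D := by rw [hD]; positivity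
    rw [← hD] at h1 hbx'
    have h3 : D * L * Real.sqrt x ≤ ε / 8 * A := by
      have h4 : Real.sqrt x * (D * L * Real.sqrt x) ≤ Real.sqrt x * (ε / 8 * A) := by
        calc Real.sqrt x * (D * L * Real.sqrt x) = D * L * (Real.sqrt x * Real.sqrt x) := by ring
          _ = D * L * x := by rw [hss]
          _ ≤ D * L * (A * L ^ K) := mul_le_mul_of_nonneg_left hA0 (by positivity)
          _ = D * A * L ^ (K + 1) := by ring
          _ ≤ D * A * (ε / (8 * D) * Real.sqrt x) :=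
              mul_le_mul_of_nonneg_left hbx' (by positivity)
          _ = Real.sqrt x * (ε / 8 * A) := by
              field_simp
      exact le_of_mul_le_mul_left h4 hs0
    calc kap r * (x : ℝ) ^ (4 / 3 : ℝ) ≤ (D * L) * (x * Real.sqrt x) :=
          mul_le_mul h1 h2 (by positivity) (by positivity)
      _ = x * (D * L * Real.sqrt x) := by ring
      _ ≤ x * (ε / 8 * A) := mul_le_mul_of_nonneg_left h3 hx0.le
      _ = _ := by ring
  obtain ⟨P, hP⟩ : ∃ P : ℝ, P = kap r * ∏ p ∈ Nat.primesLE (Zr r), (1 - gg p) := ⟨_, rfl⟩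
  rw [← hP] at b0 b2
  have herr4 : |P * (κ₀ * (A * x)) - κ₀ * Sg * (A * x)| ≤ ε / 4 * (A * x) := by
    have h1 : P * (κ₀ * (A * x)) - κ₀ * Sg * (A * x) = (P - Sg) * (κ₀ * (A * x)) := by ring
    rw [h1, abs_mul, abs_of_nonneg (by positivity : (0 : ℝ) ≤ κ₀ * (A * x))]
    calc |P - Sg| * (κ₀ * (A * x)) ≤ ε / (4 * κ₀) * (κ₀ * (A * x)) :=
          mul_le_mul_of_nonneg_right b0.le (by positivity)
      _ = ε / 4 * (A * x) := by field_simp
  have hAx0 : (0 : ℝ) ≤ ε * (A * x) := by positivity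
  rw [abs_le] at b1 b2 herr4 ⊢
  constructor
  · linarith [b1.1, b1.2, b2.1, b2.2, herr4.1, herr4.2]
  · linarith [b1.1, b1.2, b2.1, b2.2, herr4.1, herr4.2]

end Pool.Agent.FI
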