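import Pool.Agent.helper95.FI.SpecM

/-! # Row YYB of the fi project: the angle in the fundamental domain -/

set_option autoImplicit false

open Finset

namespace Pool.Agent.FI

theorem YYB : YYB_stmt := by
  rintro ⟨a, l⟩ ⟨_, hz⟩
  have ht2 : √(8 : ℝ) * √8 = 8 := Real.mul_self_sqrt (by norm_num)
  have ht0 : 0 ≤ √(8 : ℝ) := Real.sqrt_nonneg _
  have htl : 2 < √(8 : ℝ) := by nlinarith
  have htu : √(8 : ℝ) < 4 := by nlinarith
  have hlep : lep = Real.log (3 + √8) := rfl
  have key : ∀ p q : ℝ, 0 < p → 0 < q → p ≤ (3 + √8) * q → q ≤ (3 + √8) * p → |Real.log (p / q)| ≤ lep := by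
    intro p q hp hq h1 h2
    rw [hlep, abs_le]
    constructor
    · rw [← Real.log_inv]
      refine Real.log_le_log (by positivity) ?_
      rw [inv_eq_one_div, div_le_div_iff₀ (by positivity) hq]
      linarith
    · refine Real.log_le_log (by positivity) ?_
      rw [div_le_iff₀ hq]
      exact h1
  show |Real.log (|(a : ℝ) + l * √8| / |(a : ℝ) - l * √8|)| ≤ lep
  rcases hz with h | h
  · have h1 : 4 * |(l : ℝ)| < a := by exact_mod_cast h
    have h2 := abs_le.1 (le_refl |(l : ℝ)|)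
    have h3 : 0 ≤ |(l : ℝ)| := abs_nonneg _
    have hp : 0 < (a : ℝ) + l * √8 := by nlinarith
    have hq : 0 < (a : ℝ) - l * √8 := by nlinarith
    rw [abs_of_pos hp, abs_of_pos hq]
    refine key _ _ hp hq ?_ ?_
    · have h4 : 0 ≤ ((a : ℝ) - 4 * l) * (2 + √8) := mul_nonneg (by linarith) (by linarith)
      nlinarith
    · have h4 : 0 ≤ ((a : ℝ) + 4 * l) * (2 + √8) := mul_nonneg (by linarith) (by linarith)
      nlinarith
  · have h1 : |(a : ℝ)| < 2 * l := by exact_mod_cast h
    have h2 := abs_lt.1 h1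
    have h3 : 0 ≤ |(a : ℝ)| := abs_nonneg _
    have hl : 0 < (l : ℝ) := by linarith
    have hp : 0 < (a : ℝ) + l * √8 := by nlinarith
    have hq : (a : ℝ) - l * √8 < 0 := by nlinarith
    rw [abs_of_pos hp, abs_of_neg hq]
    refine key _ _ hp (by linarith) ?_ ?_
    · have h4 : 0 ≤ (2 * (l : ℝ) - a) * (4 + √8) := mul_nonneg (by linarith) (by linarith)
      nlinarith
    · have h4 : 0 ≤ (2 * (l : ℝ) + a) * (4 + √8) := mul_nonneg (by linarith) (by linarith)
      nlinarith

end Pool.Agent.FI
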